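import Pool.Agent.N105.LT.Defs

/-! Project LG (helper105), leaf I3 (helper793): the integral of `(x / sinh x) ^ 2`. -/

set_option autoImplicit false

open MeasureTheory Set Filter Topology Real

namespace Pool.Agent.N793.LG

open Pool.Agent.N105.LT

theorem kk_abs (x : ℝ) : kk |x| = kk x := by
  unfold kk
  rcases le_total 0 x with h | h
  · rw [abs_of_nonneg h]
  · rw [abs_of_nonpos h]
    by_cases h0 : x = 0
    · simp [h0]
    · rw [if_neg h0, if_neg (neg_ne_zero.2 h0), Real.sinh_neg, neg_div_neg_eq]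

theorem cosh_ge {x : ℝ} (hx : 0 ≤ x) : 1 + x ^ 2 / 4 ≤ cosh x := by
  rw [Real.cosh_eq]
  have h1 := Real.quadratic_le_exp_of_nonneg hx
  have h2 := Real.add_one_le_exp (-x)
  linarith

theorem sinh_ge {x : ℝ} (hx : 0 ≤ x) : x * (1 + x ^ 2 / 16) ≤ sinh x := by
  have h1 : sinh x = 2 * sinh (x / 2) * cosh (x / 2) := by
    rw [← Real.sinh_two_mul]; congr 1; ring
  have h2 : x / 2 ≤ sinh (x / 2) := Real.self_le_sinh_iff.2 (by linarith)
  have h3 := cosh_ge (x := x / 2) (by linarith)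
  rw [h1]
  have h4 : 0 ≤ sinh (x / 2) := by linarith
  nlinarith [mul_le_mul h2 h3 (by positivity) h4]

theorem kk_sq_le (x : ℝ) : kk x ^ 2 ≤ 8 * (1 + x ^ 2)⁻¹ := by
  have key : ∀ y : ℝ, 0 ≤ y → kk y ^ 2 ≤ 8 * (1 + y ^ 2)⁻¹ := by
    intro y hy
    have h8 : (0 : ℝ) < 1 + y ^ 2 := by positivity
    unfold kk
    rw [← div_eq_mul_inv, le_div_iff₀ h8]
    rcases hy.eq_or_lt with h0 | h0
    · rw [← h0]; norm_num
    · rw [if_neg h0.ne']
      have h1 := sinh_ge hy
      have h2 : 0 < y * (1 + y ^ 2 / 16) := by positivity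
      have h3 : 0 < sinh y := lt_of_lt_of_le h2 h1
      have h4 : (y * (1 + y ^ 2 / 16)) ^ 2 ≤ sinh y ^ 2 := pow_le_pow_left₀ h2.le h1 2
      rw [div_pow, div_mul_eq_mul_div, div_le_iff₀ (by positivity)]
      nlinarith [sq_nonneg (y ^ 2), sq_nonneg (y ^ 3), sq_nonneg y]
  have := key |x| (abs_nonneg x)
  rwa [kk_abs, sq_abs] at this

theorem kk_meas : Measurable kk := by
  unfold kk
  exact Measurable.ite (measurableSet_singleton 0) measurable_const (measurable_id.div Real.measurable_sinh)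

theorem kk_integrable : Integrable (fun x : ℝ => kk x ^ 2) := by
  refine (integrable_inv_one_add_sq.const_mul 8).mono' (kk_meas.pow_const 2).aestronglyMeasurable ?_
  filter_upwards with x
  rw [Real.norm_of_nonneg (by positivity)]
  exact kk_sq_le x

/-- the terms of the series -/
noncomputable def Ft (n : ℕ) (x : ℝ) : ℝ := 4 * n * (x ^ 2 * exp (-(2 * n * x)))

theorem int_Ft (n : ℕ) : Integrable (Ft n) (volume.restrict (Ioi 0)) ∧ ∫ x in Ioi (0 : ℝ), Ft n x = 1 / (n : ℝ) ^ 2 := by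
  rcases Nat.eq_zero_or_pos n with h0 | h0
  · subst h0
    have h1 : Ft 0 = fun _ => 0 := by funext x; simp [Ft]
    rw [h1]
    exact ⟨integrable_zero _ _ _, by simp⟩
  · have hn : (0 : ℝ) < n := by exact_mod_cast h0
    have h1 := Real.integral_rpow_mul_exp_neg_mul_Ioi (a := 3) (r := 2 * n) (by norm_num) (by positivity)
    have h2 : ∫ x in Ioi (0 : ℝ), x ^ 2 * exp (-(2 * n * x)) = 2 / (2 * n) ^ 3 := by
      have e1 : ∫ x in Ioi (0 : ℝ), x ^ ((3 : ℝ) - 1) * exp (-(2 * n * x)) =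
          ∫ x in Ioi (0 : ℝ), x ^ 2 * exp (-(2 * n * x)) := by
        refine setIntegral_congr_fun measurableSet_Ioi fun x _ => ?_
        have h9 : (3 : ℝ) - 1 = ((2 : ℕ) : ℝ) := by norm_num
        show x ^ ((3 : ℝ) - 1) * exp (-(2 * n * x)) = x ^ 2 * exp (-(2 * n * x))
        rw [h9, Real.rpow_natCast]
      rw [← e1, h1]
      have e2 : Real.Gamma 3 = 2 := by
        have h9 := Real.Gamma_nat_eq_factorial 2
        have h10 : ((2 : ℕ) : ℝ) + 1 = 3 := by norm_num
        rw [h10] at h9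
        rw [h9]
        norm_num [Nat.factorial]
      have e3 : (1 / (2 * (n : ℝ))) ^ (3 : ℝ) = (1 / (2 * (n : ℝ))) ^ (3 : ℕ) := by
        rw [← Real.rpow_natCast]; norm_num
      rw [e2, e3]
      field_simp
    have h3 : Integrable (fun x : ℝ => x ^ 2 * exp (-(2 * n * x))) (volume.restrict (Ioi 0)) := by
      refine Integrable.of_integral_ne_zero ?_
      rw [h2]
      positivity
    refine ⟨h3.const_mul (4 * n), ?_⟩
    unfold Ft
    rw [integral_const_mul, h2]
    field_simp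
    ring

theorem hasSum_kk {x : ℝ} (hx : 0 < x) : HasSum (fun n : ℕ => Ft n x) (kk x ^ 2) := by
  have hq0 : 0 < exp (-(2 * x)) := Real.exp_pos _
  have hq1 : exp (-(2 * x)) < 1 := by
    rw [Real.exp_lt_one_iff]; linarith
  have h1 : HasSum (fun n : ℕ => (n : ℝ) * exp (-(2 * x)) ^ n) (exp (-(2 * x)) / (1 - exp (-(2 * x))) ^ 2) :=
    hasSum_coe_mul_geometric_of_norm_lt_one (by rw [Real.norm_of_nonneg hq0.le]; exact hq1)
  have h2 := h1.mul_left (4 * x ^ 2)
  have e1 : kk x ^ 2 = 4 * x ^ 2 * (exp (-(2 * x)) / (1 - exp (-(2 * x))) ^ 2) := by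
    unfold kk
    rw [if_neg hx.ne', Real.sinh_eq]
    have h3 : exp (-(2 * x)) = exp (-x) * exp (-x) := by rw [← Real.exp_add]; congr 1; ring
    have h4 : exp x * exp (-x) = 1 := by rw [← Real.exp_add]; simp
    have h5 : 0 < exp x := Real.exp_pos _
    have h6 : 0 < exp (-x) := Real.exp_pos _
    have h7 : exp (-x) < 1 := by rw [Real.exp_lt_one_iff]; linarith
    have h8 : 1 < exp x := by rw [Real.one_lt_exp_iff]; exact hx
    have h9 : exp x - exp (-x) ≠ 0 := by linarith [h7, h8]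
    have h10 : 1 - exp (-x) * exp (-x) ≠ 0 := by
      rw [← h3]; linarith
    rw [h3]
    have h11 : 1 - exp (-x) * exp (-x) = exp (-x) * (exp x - exp (-x)) := by
      rw [mul_sub, mul_comm (exp (-x)) (exp x), h4]
    rw [h11]
    field_simp
    norm_num
  rw [e1]
  have e2 : (fun n : ℕ => Ft n x) = fun n : ℕ => 4 * x ^ 2 * ((n : ℝ) * exp (-(2 * x)) ^ n) := by
    funext n
    unfold Ft
    rw [← Real.exp_nat_mul]
    have : (n : ℝ) * -(2 * x) = -(2 * n * x) := by ring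
    rw [this]
    ring
  rw [e2]
  exact h2

theorem i3 : Integrable (fun x : ℝ => kk x ^ 2) ∧ ∫ x : ℝ, kk x ^ 2 = π ^ 2 / 3 := by
  refine ⟨kk_integrable, ?_⟩
  have h1 : ∫ x : ℝ, kk x ^ 2 = 2 * ∫ x in Ioi (0 : ℝ), kk x ^ 2 := by
    rw [← integral_comp_abs (f := fun x => kk x ^ 2)]
    simp only [kk_abs]
  have h2 : ∫ x in Ioi (0 : ℝ), kk x ^ 2 = ∫ x in Ioi (0 : ℝ), ∑' n, Ft n x :=
    setIntegral_congr_fun measurableSet_Ioi fun x hx => ((hasSum_kk hx).tsum_eq).symm
  have h3 : ∀ n, ∫ x in Ioi (0 : ℝ), ‖Ft n x‖ = 1 / (n : ℝ) ^ 2 := by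
    intro n
    rw [← (int_Ft n).2]
    refine setIntegral_congr_fun measurableSet_Ioi fun x _ => ?_
    exact Real.norm_of_nonneg (by unfold Ft; positivity)
  have h4 := hasSum_integral_of_summable_integral_norm (fun n => (int_Ft n).1)
    (by simp only [h3]; exact hasSum_zeta_two.summable)
  simp only [(int_Ft _).2] at h4
  have h5 := h4.unique hasSum_zeta_two
  rw [h1, h2, h5]
  ring

end Pool.Agent.N793.LG
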